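import Pool.Agent.N167.Rot

/-!
# A stable torsion class in the image of the cycle class map on `M_g`

Let `Γ_g = Out⁺(π_1(Σ_g))` be the mapping class group of the closed oriented surface of genus `g`, so
that `H^*(M_g; ℤ) = H^*(Γ_g; ℤ)`, and `Γ_{g,∂}` the mapping class group of the surface of genus `g` with
one boundary component, with the maps `cap : Γ_{g,∂} → Γ_g` and `stab : Γ_{g,∂} → Γ_{g+1,∂}`. They
induce isomorphisms on `H⁴` for large `g` by the stability theorem of Harer, which identify the groups
`H⁴(Γ_g; ℤ)`, for large `g`, with the stable group.

Let `p : Y_g → M_g` be the moduli space of the curves `C` of genus `g` together with a line in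
`H¹(C; ℤ/7)`. It is a finite etale covering, and corresponds to the finite `Γ_g`-set of the lines in
`H¹(Σ_g; ℤ/7)`. The tautological line is a torsor under `(ℤ/7)ˣ` on `Y_g`, and a character of order
three of `(ℤ/7)ˣ` gives a line bundle `L_g` of order three on `Y_g`. We show that the classes

  `x_g = p_* (c₁(L_g)²) ∈ H⁴(M_g; ℤ)`

of algebraic cycles of codimension two are compatible with stabilisation, that `3 x_g = 0`, and that
`x_g ≠ 0` for all `g = 3 m` with `m` not divisible by three. So they form a stable torsion class.

A finite covering of `M_g` with a flat line bundle of order `N` is the same as a finite `Γ_g`-set `P`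
with a cocycle `lam : Γ_g × P → ℤ/N` (`FlatBundle`); by the existence theorem of Riemann both are
algebraic. Let `l(g, x) ∈ {0, …, N - 1}` be the representative of `lam g x`. The class `c₁(L)` is the
class of the cocycle `c(g, h; x) = (l(g, h x) + l(h, x) - l(g h, x)) / N` of `Γ_g` with values in the
functions on `P`, and the push-forward is induced by the sum over `P`; so `p_* (c₁(L)²)` is the class
(`pushSq`) of the cocycle `∑_x c(g₁, g₂; g₃ g₄ x) c(g₃, g₄; x)`.

Proof. The vector space `H¹(Σ_{g+1}; ℤ/7)` is, as a representation of `Γ_{g,∂}`, the direct sum of
`H¹(Σ_g; ℤ/7)` and a trivial representation of dimension two. On the lines that are not contained in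
the first summand the flat line bundle is trivial. This proves the stability. For `g = 3 m`, the
rotation `τ` of the `3 m` handles by `m` steps is an automorphism of order three of `π_1(Σ_g)`, and the
value of the cocycle on the generator of `H_4` modulo three of the subgroup generated by `τ` is the
number of the eigenlines of `τ` with eigenvalues two and four modulo three, which is
`2 (7^(2m) - 1)/6 = m` modulo three.
-/

set_option autoImplicit false

namespace Pool.Agent.Results.MP_00590d_ag.StableTorsion

open Pool.Agent.N167.ST

/-- There are flat line bundles `L_g` of order three on finite coverings `p` of `M_g` such that the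
classes `x_g = p_* (c₁(L_g)²) ∈ H⁴(Γ_g; ℤ)` are compatible with stabilisation (`x_g` and `x_{g+1}` have
the same pull-back to `Γ_{g,∂}`), are killed by three, and are not zero for `g = 3 m`, `3 ∤ m`. -/
theorem result : ∃ L : (g : ℕ) → FlatBundle (MCG g) 3,
    (IsStable fun g => (L g).pushSq) ∧
    (∀ g, (3 : ℤ) • (L g).pushSq = 0) ∧
    (∀ m, ¬ 3 ∣ m → (L (3 * m)).pushSq ≠ 0) :=
  ⟨lineBundle, stable, fun g => (lineBundle g).torsion, ne_zero⟩

end Pool.Agent.Results.MP_00590d_ag.StableTorsion
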